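import Pool.Agent.H20.NP.Star

/-!
# Near positivity on one stage
-/

open MeasureTheory ENNReal NNReal Filter Topology
open scoped InnerProductSpace

namespace Pool.Agent.H21.NC

variable {H : Type*} [NormedAddCommGroup H] [InnerProductSpace ℂ H] [CompleteSpace H]
variable {M : VonNeumannAlgebra H} {Ω : H}
  {emb : Lp ℂ 2 nu →ₗᵢ[ℂ] H} {X : (ZZ → ℝ) → H →L[ℂ] H}

lemma np_arith {Q r : ℝ} (h1 : r ^ 4 ≤ 8 * Q + 128 * Q ^ 2) (h2 : Q ≤ r + 24) :
    Q ≤ 64 := by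
  by_contra hQ
  push Not at hQ
  have h3 : Q / 2 ≤ r := by linarith
  have h4 : (Q / 2) ^ 4 ≤ r ^ 4 := pow_le_pow_left₀ (by linarith) h3 4
  have h5 : Q ^ 4 ≤ 16 * (8 * Q + 128 * Q ^ 2) := by
    have : (Q / 2) ^ 4 = Q ^ 4 / 16 := by ring
    linarith
  have h6 : Q ^ 4 > 16 * (8 * Q + 128 * Q ^ 2) := by
    have h7 : Q ^ 2 > 64 ^ 2 := by nlinarith
    have h8 : Q ^ 4 > 64 ^ 2 * Q ^ 2 := by nlinarith
    have h9 : Q ^ 2 > 64 * Q := by nlinarith
    nlinarith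
  linarith

/-- the key estimate: `∫ c₁ S(c₁) ≤ 64` -/
lemma np_Q (n i i' : ℕ) (hi : i' < i) {c : UnitAddCircle → ℝ} {C : ℝ} (hcm : Measurable c)
    (hc0 : ∀ s, 0 ≤ c s) (hcC : ∀ s, c s ≤ C)
    (hstar : ∀ (f : UnitAddCircle → ℝ) (D : ℝ), Measurable f → (∀ s, 0 ≤ f s) → (∀ s, f s ≤ D) →
      ∃ r : ℝ, 0 ≤ r ∧ r ^ 4 ≤ (∫ s, f s ^ 4) + 2 * Q1 n i' ^ 4 * (∫ s, f s ^ 2) ^ 2 ∧
      ∫ s, c s * f s ≤ r + Q1 n i' ^ 3 * ∫ s, f s)
    (hm : ∫ s, c s ≤ 3 * Q1 n i' ^ 3)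
    {S : ℝ → ℝ} (hSm : Measurable S) (hS0 : ∀ x, 0 ≤ x → 0 ≤ S x)
    (hS3 : ∀ x, 0 ≤ x → S x ^ 3 ≤ 8 * x) (hSQ : ∀ x, 0 ≤ x → S x * Q0 n i ^ 2 ≤ 8 * x) :
    ∫ s, c s * S (c s) ≤ 64 := by
  have hprob := circ_prob
  have hcabs : ∀ s, |c s| ≤ C := fun s => by rw [abs_of_nonneg (hc0 s)]; exact hcC s
  have hci : Integrable c volume := integrable_bdd hcm hcabs
  have hC0 : 0 ≤ C := (hc0 0).trans (hcC 0)
  set f : UnitAddCircle → ℝ := fun s => S (c s) with hf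
  have hfm : Measurable f := hSm.comp hcm
  have hf0 : ∀ s, 0 ≤ f s := fun s => hS0 _ (hc0 s)
  have hfD : ∀ s, f s ≤ 1 + 8 * C := by
    intro s
    have h1 := hS3 _ (hc0 s)
    have h2 := hf0 s
    rcases le_total (f s) 1 with h3 | h3
    · linarith
    · have h4 : f s ≤ f s ^ 3 := by nlinarith [mul_nonneg h2 (sub_nonneg.2 h3), sq_nonneg (f s)]
      have h5 : f s ^ 3 ≤ 8 * c s := h1
      have h6 := hcC s
      linarith
  have habs : ∀ s, |f s| ≤ 1 + 8 * C := fun s => by rw [abs_of_nonneg (hf0 s)]; exact hfD s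
  have hfi : Integrable f volume := integrable_bdd hfm habs
  have hcf : Integrable (fun s => c s * f s) volume := by
    refine integrable_bdd (hcm.mul hfm) (C := C * (1 + 8 * C)) fun s => ?_
    rw [abs_mul]
    exact mul_le_mul (hcabs s) (habs s) (abs_nonneg _) hC0
  obtain ⟨r, hr0, hr4, hr⟩ := hstar f _ hfm hf0 hfD
  set Q := ∫ s, c s * f s with hQ
  have hQ0 : 0 ≤ Q := integral_nonneg fun s => mul_nonneg (hc0 s) (hf0 s)
  have q0 := Q0_pos n i
  have q1 := Q1_pos n i'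
  have q1' := one_le_Q1 n i'
  have hw := window n i i' hi
  have h8 : (1 : ℝ) ≤ 8 ^ n := one_le_pow₀ (by norm_num)
  have hw' : Q1 n i' ^ 3 ≤ Q0 n i := by nlinarith [pow_pos q1 3]
  have hw1 : Q1 n i' ≤ Q0 n i := by
    have : Q1 n i' ≤ Q1 n i' ^ 3 := by
      nlinarith [mul_nonneg q1.le (sub_nonneg.2 q1'), sq_nonneg (Q1 n i')]
    linarith
  -- the three integrals
  have i4 : ∫ s, f s ^ 4 ≤ 8 * Q := by
    rw [hQ, ← integral_const_mul]
    refine integral_mono (integrable_bdd (hfm.pow_const 4) (C := (1 + 8 * C) ^ 4) fun s => by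
      rw [abs_pow]; exact pow_le_pow_left₀ (abs_nonneg _) (habs s) 4) (hcf.const_mul 8) fun s => ?_
    have h1 := hS3 _ (hc0 s)
    have h2 := hf0 s
    have h3 : f s ^ 3 ≤ 8 * c s := h1
    calc f s ^ 4 = f s ^ 3 * f s := by ring
      _ ≤ 8 * c s * f s := mul_le_mul_of_nonneg_right h3 h2
      _ = 8 * (c s * f s) := by ring
  have i2 : (∫ s, f s ^ 2) * Q0 n i ^ 2 ≤ 8 * Q := by
    rw [hQ, ← integral_const_mul, ← integral_mul_const]
    refine integral_mono ((integrable_bdd (hfm.pow_const 2) (C := (1 + 8 * C) ^ 2) fun s => by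
      rw [abs_pow]; exact pow_le_pow_left₀ (abs_nonneg _) (habs s) 2).mul_const _)
      (hcf.const_mul 8) fun s => ?_
    have h1 : f s * Q0 n i ^ 2 ≤ 8 * c s := hSQ _ (hc0 s)
    have h2 := hf0 s
    calc f s ^ 2 * Q0 n i ^ 2 = (f s * Q0 n i ^ 2) * f s := by ring
      _ ≤ 8 * c s * f s := mul_le_mul_of_nonneg_right h1 h2
      _ = 8 * (c s * f s) := by ring
  have i1 : (∫ s, f s) * Q0 n i ^ 2 ≤ 24 * Q1 n i' ^ 3 := by
    have h1 : (∫ s, f s) * Q0 n i ^ 2 ≤ 8 * ∫ s, c s := by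
      rw [← integral_const_mul, ← integral_mul_const]
      exact integral_mono (hfi.mul_const _) (hci.const_mul 8) fun s => hSQ _ (hc0 s)
    linarith
  have j2 : 0 ≤ ∫ s, f s ^ 2 := integral_nonneg fun s => by positivity
  have j1 : 0 ≤ ∫ s, f s := integral_nonneg hf0
  refine np_arith (r := r) ?_ ?_
  · -- r^4 ≤ 8 Q + 128 Q^2
    have h1 : Q1 n i' ^ 4 * (∫ s, f s ^ 2) ^ 2 ≤ 64 * Q ^ 2 := by
      calc Q1 n i' ^ 4 * (∫ s, f s ^ 2) ^ 2 ≤ Q0 n i ^ 4 * (∫ s, f s ^ 2) ^ 2 := by gcongr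
        _ = ((∫ s, f s ^ 2) * Q0 n i ^ 2) ^ 2 := by ring
        _ ≤ (8 * Q) ^ 2 := pow_le_pow_left₀ (by positivity) i2 2
        _ = 64 * Q ^ 2 := by ring
    nlinarith
  · have h1 : Q1 n i' ^ 3 * ∫ s, f s ≤ 24 := by
      have h2 : Q1 n i' ^ 3 * (∫ s, f s) * Q0 n i ^ 2 ≤ 24 * Q0 n i ^ 2 := by
        calc Q1 n i' ^ 3 * (∫ s, f s) * Q0 n i ^ 2 = Q1 n i' ^ 3 * ((∫ s, f s) * Q0 n i ^ 2) := by
              ring
          _ ≤ Q1 n i' ^ 3 * (24 * Q1 n i' ^ 3) := by gcongr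
          _ = 24 * (Q1 n i' ^ 3) ^ 2 := by ring
          _ ≤ 24 * Q0 n i ^ 2 := by gcongr
      exact le_of_mul_le_mul_right h2 (by positivity)
    linarith

/-- near positivity, normalised function version -/
lemma np_core (hP : FreePoisson nu M Ω emb X) (n i i' : ℕ) (hi : i' < i)
    {c : UnitAddCircle → ℝ} {C : ℝ} (hcm : Measurable c)
    (hc0 : ∀ s, 0 ≤ c s) (hcC : ∀ s, c s ≤ C)
    (hstar : ∀ (f : UnitAddCircle → ℝ) (D : ℝ), Measurable f → (∀ s, 0 ≤ f s) → (∀ s, f s ≤ D) →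
      ∃ r : ℝ, 0 ≤ r ∧ r ^ 4 ≤ (∫ s, f s ^ 4) + 2 * Q1 n i' ^ 4 * (∫ s, f s ^ 2) ^ 2 ∧
      ∫ s, c s * f s ≤ r + Q1 n i' ^ 3 * ∫ s, f s) :
    Good nu (stg n i fun j s => (((8 : ℝ) ^ n * q (n, i, j)) ^ 3)⁻¹ * (c s - ∫ t, c t)) ∧
    0 ≤ X (stg n i fun j s => (((8 : ℝ) ^ n * q (n, i, j)) ^ 3)⁻¹ * (c s - ∫ t, c t)) +
      ((200 * ((8 : ℝ) ^ n)⁻¹ : ℝ) : ℂ) • (1 : H →L[ℂ] H) := by
  have hprob := circ_prob
  have hcabs : ∀ s, |c s| ≤ C := fun s => by rw [abs_of_nonneg (hc0 s)]; exact hcC s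
  have hci : Integrable c volume := integrable_bdd hcm hcabs
  have hC0 : 0 ≤ C := (hc0 0).trans (hcC 0)
  have e8 : (0 : ℝ) < (8 : ℝ) ^ n := by positivity
  have e8' : (1 : ℝ) ≤ (8 : ℝ) ^ n := one_le_pow₀ (by norm_num)
  have q0 := Q0_pos n i
  have q1 := Q1_pos n i'
  have q1' := one_le_Q1 n i'
  have hw := window n i i' hi
  have hw' : Q1 n i' ^ 3 ≤ Q0 n i := by nlinarith [pow_pos q1 3]
  set m := ∫ t, c t with hmdef
  have hm0 : 0 ≤ m := integral_nonneg hc0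
  -- mean bound
  have hm : m ≤ 3 * Q1 n i' ^ 3 := by
    obtain ⟨r, hr0, hr4, hr⟩ := hstar (fun _ => 1) 1 measurable_const (fun _ => zero_le_one)
      (fun _ => le_rfl)
    simp only [one_pow, mul_one, integral_const, probReal_univ, smul_eq_mul] at hr4 hr
    have h1 : r ^ 4 ≤ (2 * Q1 n i') ^ 4 := by
      have : 1 ≤ Q1 n i' ^ 4 := one_le_pow₀ q1'
      nlinarith
    have h2 : r ≤ 2 * Q1 n i' := (pow_le_pow_iff_left₀ hr0 (by positivity) (by norm_num)).1 h1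
    have h3 : Q1 n i' ≤ Q1 n i' ^ 3 := by
      nlinarith [mul_nonneg q1.le (sub_nonneg.2 q1'), sq_nonneg (Q1 n i')]
    linarith
  -- measurability of the sums
  have hS1m : Measurable (S1 n i) := by
    unfold S1
    refine Finset.measurable_fun_sum _ fun j _ => ?_
    exact Measurable.ite measurableSet_Ioi measurable_const measurable_const
  have hS2m : Measurable (S2 n i) := by
    unfold S2
    refine measurable_id.mul (Finset.measurable_fun_sum _ fun j _ => ?_)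
    exact Measurable.ite measurableSet_Ioi measurable_const measurable_const
  have hQ1 := np_Q n i i' hi hcm hc0 hcC hstar hm hS1m (fun x _ => S1_nonneg n i x)
    (fun x hx => (S1_bounds n i hx).1) (fun x hx => (S1_bounds n i hx).2)
  have hQ2 := np_Q n i i' hi hcm hc0 hcC hstar hm hS2m (fun x hx => S2_nonneg n i hx)
    (fun x hx => (S2_bounds n i hx).1) (fun x hx => (S2_bounds n i hx).2)
  -- the coefficients
  set kap : ℕ → ℝ := fun j => (((8 : ℝ) ^ n * q (n, i, j)) ^ 3)⁻¹ with hkap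
  have hk0 : ∀ j, 0 < kap j := fun j => by have := q_pos (n, i, j); positivity
  have hk1 : ∀ j, kap j ≤ 1 := fun j => inv_le_one_of_one_le₀
    (one_le_pow₀ (one_le_mul_of_one_le_of_one_le e8' (one_le_q _)))
  -- the three pieces
  have hset : ∀ j, MeasurableSet {s | q (n, i, j) ^ 3 < c s} := fun j => hcm measurableSet_Ioi
  set u : ℕ → UnitAddCircle → ℝ := fun j s => if q (n, i, j) ^ 3 < c s then c s else 0 with hu
  set v : ℕ → UnitAddCircle → ℝ := fun j s => if q (n, i, j) ^ 3 < c s then 0 else c s with hv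
  have hum : ∀ j, Measurable (u j) := fun j => Measurable.ite (hset j) hcm measurable_const
  have hvm : ∀ j, Measurable (v j) := fun j => Measurable.ite (hset j) measurable_const hcm
  have hu0 : ∀ j s, 0 ≤ u j s := fun j s => by
    simp only [hu]; split_ifs; exacts [hc0 s, le_rfl]
  have hv0 : ∀ j s, 0 ≤ v j s := fun j s => by
    simp only [hv]; split_ifs; exacts [le_rfl, hc0 s]
  have huC : ∀ j s, |u j s| ≤ C := fun j s => by
    rw [abs_of_nonneg (hu0 j s)]; simp only [hu]; split_ifs; exacts [hcC s, hC0]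
  have hvC : ∀ j s, |v j s| ≤ C := fun j s => by
    rw [abs_of_nonneg (hv0 j s)]; simp only [hv]; split_ifs; exacts [hC0, hcC s]
  have hbd : ∀ (w : ℕ → UnitAddCircle → ℝ), (∀ j s, |w j s| ≤ C) → ∀ j s, |kap j * w j s| ≤ C := by
    intro w hw j s
    rw [abs_mul, abs_of_pos (hk0 j)]
    calc kap j * |w j s| ≤ 1 * |w j s| := by gcongr; exact hk1 j
      _ ≤ C := by rw [one_mul]; exact hw j s
  have hmC : m ≤ C := by
    calc m ≤ ∫ _ : UnitAddCircle, C := integral_mono hci (integrable_const _) hcC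
      _ = C := by simp
  set ff := stg n i fun j s => kap j * u j s with hff
  set gg := stg n i fun j s => kap j * v j s with hgg
  set hh := stg n i fun j _ => kap j * m with hhh
  have gf : Good nu ff := good_stg (fun j => (hum j).const_mul _) (hbd u huC)
  have gG : Good nu gg := good_stg (fun j => (hvm j).const_mul _) (hbd v hvC)
  have gh : Good nu hh := good_stg (fun j => measurable_const)
    (hbd (fun _ _ => m) fun j s => by rw [abs_of_nonneg hm0]; exact hmC)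
  have hK : (stg n i fun j s => kap j * (c s - m)) = (ff + gg) + (-1 : ℝ) • hh := by
    ext z
    simp only [hff, hgg, hhh, Pi.add_apply, Pi.smul_apply, smul_eq_mul, stg]
    split_ifs with h
    · simp only [hu, hv]
      split_ifs <;> ring
    · ring
  have gfg : Good nu (ff + gg) := ⟨gf.1.add gG.1, gf.2.add gG.2⟩
  have gmh : Good nu ((-1 : ℝ) • hh) := ⟨gh.1.const_smul _, gh.2.const_smul _⟩
  refine ⟨by rw [hK]; exact ⟨gfg.1.add gmh.1, gfg.2.add gmh.2⟩, ?_⟩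
  rw [hK, hP.add _ _ gfg.1 gfg.2 gmh.1 gmh.2, hP.add _ _ gf.1 gf.2 gG.1 gG.2,
    hP.smul (-1) hh gh.1 gh.2]
  -- piece 1
  have iu : ∀ j, Integrable (fun s => kap j * u j s) volume := fun j =>
    integrable_bdd ((hum j).const_mul _) (hbd u huC j)
  have P1 := hP.pos ff gf.1 gf.2 (integrable_stg iu) (Eventually.of_forall fun z => by
    simp only [hff, stg, Pi.zero_apply]
    split_ifs
    · exact mul_nonneg (hk0 _).le (hu0 _ _)
    · exact le_rfl)
  have I1 : ∫ z, ff z ∂nu ≤ 64 * (((8 : ℝ) ^ n) ^ 3)⁻¹ := by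
    rw [hff, integral_stg iu]
    have h1 : ∀ j ∈ Finset.range (numLev n), q (n, i, j) ^ 4 * ∫ s, kap j * u j s =
        ∫ s, (((8 : ℝ) ^ n) ^ 3)⁻¹ * (c s * if q (n, i, j) ^ 3 < c s then q (n, i, j) else 0) := by
      intro j _
      rw [← integral_const_mul]
      congr 1
      ext s
      have := q_pos (n, i, j)
      simp only [hu, hkap]
      split_ifs
      · field_simp
      · ring
    rw [Finset.sum_congr rfl h1, ← integral_finsetSum]
    · have h2 : ∀ s, ∑ j ∈ Finset.range (numLev n), (((8 : ℝ) ^ n) ^ 3)⁻¹ *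
          (c s * if q (n, i, j) ^ 3 < c s then q (n, i, j) else 0) =
          (((8 : ℝ) ^ n) ^ 3)⁻¹ * (c s * S1 n i (c s)) := by
        intro s
        rw [S1, Finset.mul_sum, Finset.mul_sum]
      simp_rw [h2]
      rw [integral_const_mul, mul_comm]
      exact mul_le_mul_of_nonneg_right hQ1 (by positivity)
    · intro j _
      refine Integrable.const_mul ?_ _
      refine integrable_bdd (hcm.mul (Measurable.ite (hset j) measurable_const measurable_const))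
        (C := C * q (n, i, j)) fun s => ?_
      have := q_pos (n, i, j)
      rw [abs_mul]
      refine mul_le_mul (hcabs s) ?_ (abs_nonneg _) hC0
      split_ifs
      · rw [abs_of_pos this]
      · rw [abs_zero]; exact this.le
  -- piece 2
  have iv2 : ∀ j, Integrable (fun s => (kap j * v j s) ^ 2) volume := fun j =>
    integrable_bdd (((hvm j).const_mul _).pow_const 2) (C := C ^ 2) fun s => by
      rw [abs_pow]; exact pow_le_pow_left₀ (abs_nonneg _) (hbd v hvC j s) 2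
  have P2 := hP.lower gg gG.1 gG.2 (Eventually.of_forall fun z => by
    simp only [hgg, stg, Pi.zero_apply]
    split_ifs
    · exact mul_nonneg (hk0 _).le (hv0 _ _)
    · exact le_rfl)
  have I2 : ∫ z, gg z ^ 2 ∂nu ≤ 64 * ((((8 : ℝ) ^ n) ^ 3)⁻¹) ^ 2 := by
    have h0 : ∀ z, gg z ^ 2 = stg n i (fun j s => (kap j * v j s) ^ 2) z :=
      fun z => stg_pow n i _ 2 (by norm_num) z
    simp_rw [h0]
    rw [integral_stg iv2]
    have h1 : ∀ j ∈ Finset.range (numLev n), q (n, i, j) ^ 4 * ∫ s, (kap j * v j s) ^ 2 =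
        ∫ s, ((((8 : ℝ) ^ n) ^ 3)⁻¹) ^ 2 * (c s * (c s *
          if q (n, i, j) ^ 3 < c s then 0 else (q (n, i, j) ^ 2)⁻¹)) := by
      intro j _
      rw [← integral_const_mul]
      congr 1
      ext s
      have := q_pos (n, i, j)
      simp only [hv, hkap]
      split_ifs
      · ring
      · field_simp
    rw [Finset.sum_congr rfl h1, ← integral_finsetSum]
    · have h2 : ∀ s, ∑ j ∈ Finset.range (numLev n), ((((8 : ℝ) ^ n) ^ 3)⁻¹) ^ 2 * (c s * (c s *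
          if q (n, i, j) ^ 3 < c s then 0 else (q (n, i, j) ^ 2)⁻¹)) =
          ((((8 : ℝ) ^ n) ^ 3)⁻¹) ^ 2 * (c s * S2 n i (c s)) := by
        intro s
        rw [S2, Finset.mul_sum, Finset.mul_sum, Finset.mul_sum]
      simp_rw [h2]
      rw [integral_const_mul, mul_comm]
      exact mul_le_mul_of_nonneg_right hQ2 (by positivity)
    · intro j _
      refine Integrable.const_mul ?_ _
      refine integrable_bdd (hcm.mul (hcm.mul (Measurable.ite (hset j) measurable_const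
        measurable_const))) (C := C * (C * (q (n, i, j) ^ 2)⁻¹)) fun s => ?_
      have := q_pos (n, i, j)
      rw [abs_mul, abs_mul]
      refine mul_le_mul (hcabs s) (mul_le_mul (hcabs s) ?_ (abs_nonneg _) hC0)
        (by positivity) hC0
      split_ifs
      · rw [abs_zero]; positivity
      · rw [abs_of_pos (by positivity)]
  have R2 : 2 * √(∫ z, gg z ^ 2 ∂nu) ≤ 16 * (((8 : ℝ) ^ n) ^ 3)⁻¹ := by
    have h1 : √(∫ z, gg z ^ 2 ∂nu) ≤ 8 * (((8 : ℝ) ^ n) ^ 3)⁻¹ := by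
      rw [Real.sqrt_le_left (by positivity)]
      refine I2.trans (le_of_eq ?_)
      ring
    linarith
  -- piece 3
  have hQ3 : Q0 n i ≤ Q0 n i ^ 3 := le_self_pow₀ (one_le_Q0 n i) (by norm_num)
  have hhb : ∀ᵐ z ∂nu, |hh z| ≤ 3 * (((8 : ℝ) ^ n) ^ 3)⁻¹ := by
    refine Eventually.of_forall fun z => ?_
    simp only [hhh, stg]
    split_ifs with h
    · rw [abs_of_nonneg (mul_nonneg (hk0 _).le hm0)]
      have hqj := Q0_le_q n i z.2.2.2
      have h1 := one_le_Q0 n i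
      calc kap z.2.2.2 * m ≤ (((8 : ℝ) ^ n * Q0 n i) ^ 3)⁻¹ * (3 * Q1 n i' ^ 3) := by
            simp only [hkap]
            gcongr
        _ ≤ (((8 : ℝ) ^ n * Q0 n i) ^ 3)⁻¹ * (3 * Q0 n i ^ 3) := by
            have h2 : Q1 n i' ^ 3 ≤ Q0 n i ^ 3 := hw'.trans hQ3
            gcongr
        _ = 3 * (((8 : ℝ) ^ n) ^ 3)⁻¹ := by field_simp
    · rw [abs_zero]; positivity
  have I3 : ∫ z, hh z ^ 2 ∂nu ≤ (6 * (((8 : ℝ) ^ n) ^ 3)⁻¹) ^ 2 := by
    have h0 : ∀ z, hh z ^ 2 = stg n i (fun j _ => (kap j * m) ^ 2) z :=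
      fun z => stg_pow n i _ 2 (by norm_num) z
    simp_rw [h0]
    rw [integral_stg fun j => integrable_const _]
    simp only [integral_const, probReal_univ, smul_eq_mul, one_mul]
    have h1 : ∀ j ∈ Finset.range (numLev n), q (n, i, j) ^ 4 * (kap j * m) ^ 2 =
        ((((8 : ℝ) ^ n) ^ 3)⁻¹ * m) ^ 2 * (q (n, i, j) ^ 2)⁻¹ := by
      intro j _
      have := q_pos (n, i, j)
      simp only [hkap]
      field_simp
    rw [Finset.sum_congr rfl h1, ← Finset.mul_sum]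
    have h2 := sum_q_inv_pow 2 (by norm_num) n i
    calc _ ≤ ((((8 : ℝ) ^ n) ^ 3)⁻¹ * m) ^ 2 * (2 * (Q0 n i ^ 2)⁻¹) := by gcongr
      _ ≤ ((((8 : ℝ) ^ n) ^ 3)⁻¹ * (3 * Q0 n i)) ^ 2 * (2 * (Q0 n i ^ 2)⁻¹) := by
          have h3 : m ≤ 3 * Q0 n i := hm.trans (by linarith)
          gcongr
      _ = 18 * ((((8 : ℝ) ^ n) ^ 3)⁻¹) ^ 2 := by field_simp; norm_num
      _ ≤ _ := by nlinarith [sq_nonneg ((((8 : ℝ) ^ n) ^ 3)⁻¹)]
  have R3 : 2 * √(∫ z, hh z ^ 2 ∂nu) ≤ 12 * (((8 : ℝ) ^ n) ^ 3)⁻¹ := by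
    have h1 : √(∫ z, hh z ^ 2 ∂nu) ≤ 6 * (((8 : ℝ) ^ n) ^ 3)⁻¹ := by
      rw [Real.sqrt_le_left (by positivity)]
      exact I3
    linarith
  have U3 := hP.upper hh _ gh.1 hhb
  have hsa : IsSelfAdjoint (X hh) := hP.selfAdjoint hh gh.1 gh.2
  have P3 : 0 ≤ ((-1 : ℝ) : ℂ) • X hh + ((‖X hh‖ : ℝ) : ℂ) • (1 : H →L[ℂ] H) := by
    have h1 := hsa.le_algebraMap_norm_self
    rw [Algebra.algebraMap_eq_smul_one] at h1
    have h2 : (‖X hh‖ : ℝ) • (1 : H →L[ℂ] H) = ((‖X hh‖ : ℝ) : ℂ) • (1 : H →L[ℂ] H) :=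
      (Complex.coe_smul _ _).symm
    rw [h2] at h1
    have h3 := sub_nonneg.2 h1
    refine h3.trans (le_of_eq ?_)
    push_cast
    rw [neg_one_smul]
    abel
  -- assemble
  have hone : (0 : H →L[ℂ] H) ≤ 1 := zero_le_one
  set t := (((8 : ℝ) ^ n) ^ 3)⁻¹ with ht
  have ht0 : 0 < t := by positivity
  have htot : (∫ z, ff z ∂nu) + 2 * √(∫ z, gg z ^ 2 ∂nu) + ‖X hh‖ ≤ 200 * ((8 : ℝ) ^ n)⁻¹ := by
    have h1 : ‖X hh‖ ≤ 15 * t := by linarith
    have h2 : t ≤ ((8 : ℝ) ^ n)⁻¹ := by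
      rw [ht]
      refine inv_anti₀ e8 ?_
      nlinarith [mul_nonneg e8.le (sub_nonneg.2 e8'), sq_nonneg ((8 : ℝ) ^ n)]
    have h3 : 0 < ((8 : ℝ) ^ n)⁻¹ := by positivity
    linarith
  have hrest : (0 : H →L[ℂ] H) ≤ ((200 * ((8 : ℝ) ^ n)⁻¹ - ((∫ z, ff z ∂nu) +
      2 * √(∫ z, gg z ^ 2 ∂nu) + ‖X hh‖) : ℝ) : ℂ) • (1 : H →L[ℂ] H) := by
    rw [Complex.coe_smul]
    exact smul_nonneg (by linarith) hone
  have hsum := add_nonneg (add_nonneg (add_nonneg P1 P2) P3) hrest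
  refine hsum.trans (le_of_eq ?_)
  push_cast
  module

/-- near positivity: for `g ≥ 0` the operator `X(Kst n i k B_g)` is bounded below by
`- 200 * 8^(-n) * ‖g‖_{4/3}`. -/
theorem near_pos (hP : FreePoisson nu M Ω emb X) {g : H →L[ℂ] H} (hg : g ∈ M) (hg0 : 0 ≤ g)
    {n i k : ℕ} (hk : 1 ≤ k) (hki : k ≤ i) :
    0 ≤ XC X (Kst n i k (chaos emb Ω g)) +
      ((200 * ((8 : ℝ) ^ n)⁻¹ * pnorm Ω (4 / 3) g : ℝ) : ℂ) • (1 : H →L[ℂ] H) := by
  have hprob := circ_prob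
  obtain ⟨c, C, hcm, hc0, hcC, hc⟩ := exists_rep hP hg hg0 n (i - k)
  set P := pnorm Ω (4 / 3) g with hPdef
  have hP0 : 0 ≤ P := pnorm_nonneg' g
  have hcabs : ∀ s, |c s| ≤ C := fun s => by rw [abs_of_nonneg (hc0 s)]; exact hcC s
  have hci : Integrable c volume := integrable_bdd hcm hcabs
  rcases hP0.eq_or_lt with h0 | h0
  · -- `g = 0`
    have hgz : g = 0 := eq_zero_of_pnorm_eq_zero hP.isTrace hg h0.symm
    have hB : (chaos emb Ω g : ZZ → ℂ) =ᵐ[nu] fun _ => 0 := by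
      have : chaos emb Ω g = 0 := by rw [hgz, chaos]; simp
      rw [this]
      exact Lp.coeFn_zero _ _ _
    have hA : Aop n (i - k) (chaos emb Ω g) =ᵐ[volume] fun _ => 0 := by
      refine (Aop_congr hB n (i - k)).trans (Eventually.of_forall fun s => ?_)
      simp [Aop]
    have hcen : cen (Aop n (i - k) (chaos emb Ω g)) =ᵐ[volume] fun _ => 0 := by
      refine (cen_congr hA).trans (Eventually.of_forall fun s => ?_)
      simp [cen]
    have hK : Kst n i k (chaos emb Ω g) =ᵐ[nu] fun z => (((0 : ZZ → ℝ) z : ℝ) : ℂ) := by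
      apply ae_nu.mpr
      intro a
      filter_upwards [hcen] with s hs
      simp only [Kst, hs, mul_zero, ite_self, Pi.zero_apply, Complex.ofReal_zero]
    have hX0 : X (0 : ZZ → ℝ) = 0 := by
      have h := hP.smul 0 (0 : ZZ → ℝ) MemLp.zero MemLp.zero
      simpa using h
    rw [XC_congr hP hK, XC_ofReal hP, hX0, ← h0]
    simp
  · set c1 : UnitAddCircle → ℝ := fun s => c s / P with hc1
    have hstar : ∀ (f : UnitAddCircle → ℝ) (D : ℝ), Measurable f → (∀ s, 0 ≤ f s) →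
        (∀ s, f s ≤ D) → ∃ r : ℝ, 0 ≤ r ∧
        r ^ 4 ≤ (∫ s, f s ^ 4) + 2 * Q1 n (i - k) ^ 4 * (∫ s, f s ^ 2) ^ 2 ∧
        ∫ s, c1 s * f s ≤ r + Q1 n (i - k) ^ 3 * ∫ s, f s := by
      intro f D hfm hf0 hfD
      obtain ⟨r, hr0, hr4, hr⟩ := star_ineq hP hg hcm hc0 hcC hc hfm hf0 hfD
      refine ⟨r, hr0, hr4, ?_⟩
      have h1 : ∫ s, c1 s * f s = (∫ s, c s * f s) / P := by
        rw [← integral_div]
        congr 1
        ext s
        simp only [hc1]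
        ring
      rw [h1, div_le_iff₀ h0, mul_comm]
      exact hr
    obtain ⟨hgood, hpos⟩ := np_core hP n i (i - k) (by omega) (c := c1) (C := C / P)
      (hcm.div_const _) (fun s => div_nonneg (hc0 s) hP0)
      (fun s => div_le_div_of_nonneg_right (hcC s) hP0) hstar
    set K1 := stg n i fun j s => (((8 : ℝ) ^ n * q (n, i, j)) ^ 3)⁻¹ * (c1 s - ∫ t, c1 t) with hK1
    have hcen : cen (Aop n (i - k) (chaos emb Ω g)) =ᵐ[volume]
        fun s => ((P * (c1 s - ∫ t, c1 t) : ℝ) : ℂ) := by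
      refine (cen_congr hc).trans (Eventually.of_forall fun s => ?_)
      simp only [cen]
      have h1 : (∫ t, (((c t - flat n (i - k) * (tr Ω g).re : ℝ)) : ℂ)) =
          (((∫ t, c t) - flat n (i - k) * (tr Ω g).re : ℝ) : ℂ) := by
        rw [integral_complex_ofReal, integral_sub hci (integrable_const _)]
        simp
      rw [h1, ← Complex.ofReal_sub]
      congr 1
      have h2 : ∫ t, c1 t = (∫ t, c t) / P := by
        rw [← integral_div]
      rw [h2]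
      simp only [hc1]
      field_simp
      ring
    have hK : Kst n i k (chaos emb Ω g) =ᵐ[nu] fun z => (((P • K1) z : ℝ) : ℂ) := by
      apply ae_nu.mpr
      intro a
      filter_upwards [hcen] with s hs
      obtain ⟨a1, a2, a3⟩ := a
      simp only [Kst, hK1, stg, Pi.smul_apply, smul_eq_mul]
      by_cases h : a1 = n ∧ a2 = i ∧ a3 < numLev n
      · rw [if_pos h, if_pos h, hs]
        obtain ⟨rfl, rfl, h3⟩ := h
        push_cast
        ring
      · rw [if_neg h, if_neg h]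
        simp
    rw [XC_congr hP hK, XC_ofReal hP, hP.smul P K1 hgood.1 hgood.2]
    have h1 : (0 : H →L[ℂ] H) ≤ ((P : ℝ) : ℂ) • (X K1 + ((200 * ((8 : ℝ) ^ n)⁻¹ : ℝ) : ℂ) •
        (1 : H →L[ℂ] H)) := by
      rw [Complex.coe_smul]
      exact smul_nonneg hP0 hpos
    refine h1.trans (le_of_eq ?_)
    rw [smul_add, smul_smul]
    congr 2
    push_cast
    ring

end Pool.Agent.H21.NC
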