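import Pool.Agent.H21.NC.Kop2

/-!
# Functions supported on one stage; elementary sums
-/

open MeasureTheory ENNReal NNReal Filter Topology
open scoped InnerProductSpace

namespace Pool.Agent.H21.NC

/-- a function supported on stage `(n, i)` -/
noncomputable def stg (n i : ℕ) (F : ℕ → UnitAddCircle → ℝ) (z : ZZ) : ℝ :=
  if z.2.1 = n ∧ z.2.2.1 = i ∧ z.2.2.2 < numLev n then F z.2.2.2 z.1 else 0

/-- the levels of stage `(n, i)` -/
def lset (n i : ℕ) : Finset Lev := (Finset.range (numLev n)).image fun j => (n, i, j)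

lemma stg_off {n i : ℕ} (F : ℕ → UnitAddCircle → ℝ) {a : Lev} (ha : a ∉ lset n i)
    (s : UnitAddCircle) : stg n i F (s, a) = 0 := by
  obtain ⟨a1, a2, a3⟩ := a
  unfold stg
  rw [if_neg]
  rintro ⟨h1, h2, h3⟩
  dsimp only at h1 h2 h3
  subst h1 h2
  exact ha (Finset.mem_image.2 ⟨a3, Finset.mem_range.2 h3, rfl⟩)

lemma stg_on {n i j : ℕ} (F : ℕ → UnitAddCircle → ℝ) (hj : j < numLev n)
    (s : UnitAddCircle) : stg n i F (s, (n, i, j)) = F j s := by
  unfold stg
  rw [if_pos ⟨rfl, rfl, hj⟩]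

lemma sum_lset (n i : ℕ) (u : Lev → ℝ) :
    ∑ a ∈ lset n i, u a = ∑ j ∈ Finset.range (numLev n), u (n, i, j) := by
  unfold lset
  rw [Finset.sum_image]
  intro a _ b _ h
  simpa using h

lemma integrable_stg {n i : ℕ} {F : ℕ → UnitAddCircle → ℝ} (hF : ∀ j, Integrable (F j) volume) :
    Integrable (stg n i F) nu := by
  refine integrable_nu_finset (lset n i) (fun a ha s => stg_off F ha s) fun a ha => ?_
  obtain ⟨j, hj, rfl⟩ := Finset.mem_image.1 ha
  have h1 : (fun s => stg n i F (s, (n, i, j))) = F j := by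
    ext s; exact stg_on F (Finset.mem_range.1 hj) s
  rw [h1]
  exact hF j

lemma integral_stg {n i : ℕ} {F : ℕ → UnitAddCircle → ℝ} (hF : ∀ j, Integrable (F j) volume) :
    ∫ z, stg n i F z ∂nu = ∑ j ∈ Finset.range (numLev n), q (n, i, j) ^ 4 * ∫ s, F j s := by
  rw [integral_nu_finset (lset n i) (fun a ha s => stg_off F ha s) fun a ha => ?_]
  · rw [sum_lset n i fun a => q a ^ 4 • ∫ s, stg n i F (s, a)]
    refine Finset.sum_congr rfl fun j hj => ?_
    rw [smul_eq_mul]
    congr 2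
    ext s; exact stg_on F (Finset.mem_range.1 hj) s
  · obtain ⟨j, hj, rfl⟩ := Finset.mem_image.1 ha
    have h1 : (fun s => stg n i F (s, (n, i, j))) = F j := by
      ext s; exact stg_on F (Finset.mem_range.1 hj) s
    rw [h1]
    exact hF j

lemma stg_pow (n i : ℕ) (F : ℕ → UnitAddCircle → ℝ) (m : ℕ) (hm : m ≠ 0) (z : ZZ) :
    stg n i F z ^ m = stg n i (fun j s => F j s ^ m) z := by
  unfold stg
  split_ifs with h
  · rfl
  · simp [hm]

lemma stg_aesm {n i : ℕ} {F : ℕ → UnitAddCircle → ℝ}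
    (hF : ∀ j, AEStronglyMeasurable (F j) volume) : AEStronglyMeasurable (stg n i F) nu := by
  rw [aesm_nu]
  intro a
  by_cases ha : a ∈ lset n i
  · obtain ⟨j, hj, rfl⟩ := Finset.mem_image.1 ha
    have h1 : (fun s => stg n i F (s, (n, i, j))) = F j := by
      ext s; exact stg_on F (Finset.mem_range.1 hj) s
    rw [h1]
    exact hF j
  · have h1 : (fun s => stg n i F (s, a)) = fun _ => 0 := by
      ext s; exact stg_off F ha s
    rw [h1]
    exact aestronglyMeasurable_const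

lemma integrable_bdd {f : UnitAddCircle → ℝ} (hf : Measurable f) {C : ℝ} (hC : ∀ s, |f s| ≤ C) :
    Integrable f volume :=
  Integrable.of_bound hf.aestronglyMeasurable C (Eventually.of_forall fun s => hC s)

lemma good_stg {n i : ℕ} {F : ℕ → UnitAddCircle → ℝ} (hm : ∀ j, Measurable (F j)) {C : ℝ}
    (hC : ∀ j s, |F j s| ≤ C) : Good nu (stg n i F) := by
  have hC0 : 0 ≤ C := (abs_nonneg _).trans (hC 0 0)
  have haes : AEStronglyMeasurable (stg n i F) nu :=
    stg_aesm fun j => (hm j).aestronglyMeasurable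
  constructor
  · rw [memLp_two_iff_integrable_sq haes]
    have h1 : (fun z => stg n i F z ^ 2) = stg n i (fun j s => F j s ^ 2) := by
      ext z; exact stg_pow n i F 2 (by norm_num) z
    rw [h1]
    refine integrable_stg fun j => integrable_bdd ((hm j).pow_const 2) (C := C ^ 2) fun s => ?_
    rw [abs_pow]
    exact pow_le_pow_left₀ (abs_nonneg _) (hC j s) 2
  · refine memLp_top_of_bound haes C (Eventually.of_forall fun z => ?_)
    unfold stg
    split_ifs with h
    · exact hC _ _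
    · simpa using hC0

/-! ### elementary sums over powers of two -/

/-- `∑_{j : q_j^3 < x} q_j` -/
noncomputable def S1 (n i : ℕ) (x : ℝ) : ℝ :=
  ∑ j ∈ Finset.range (numLev n), if q (n, i, j) ^ 3 < x then q (n, i, j) else 0

/-- `x ∑_{j : x ≤ q_j^3} q_j^(-2)` -/
noncomputable def S2 (n i : ℕ) (x : ℝ) : ℝ :=
  x * ∑ j ∈ Finset.range (numLev n), if q (n, i, j) ^ 3 < x then 0 else (q (n, i, j) ^ 2)⁻¹

lemma S1_nonneg (n i : ℕ) (x : ℝ) : 0 ≤ S1 n i x :=
  Finset.sum_nonneg fun j _ => by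
    split_ifs
    · exact (q_pos _).le
    · exact le_rfl

lemma S2_nonneg (n i : ℕ) {x : ℝ} (hx : 0 ≤ x) : 0 ≤ S2 n i x :=
  mul_nonneg hx <| Finset.sum_nonneg fun j _ => by
    have := q_pos (n, i, j)
    split_ifs <;> positivity

lemma q_eq (n i j : ℕ) : q (n, i, j) = 2 ^ (base n i + j) := rfl

lemma S1_le_aux (n i : ℕ) (x : ℝ) (L : ℕ) :
    (∑ j ∈ Finset.range L, if q (n, i, j) ^ 3 < x then q (n, i, j) else 0) = 0 ∨
    ∃ m, q (n, i, m) ^ 3 < x ∧
      (∑ j ∈ Finset.range L, if q (n, i, j) ^ 3 < x then q (n, i, j) else 0) ≤ 2 * q (n, i, m) := by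
  induction L with
  | zero => left; simp
  | succ L ih =>
    by_cases hL : q (n, i, L) ^ 3 < x
    · right
      refine ⟨L, hL, ?_⟩
      have h1 : (∑ j ∈ Finset.range (L + 1), if q (n, i, j) ^ 3 < x then q (n, i, j) else 0) ≤
          ∑ j ∈ Finset.range (L + 1), (2 : ℝ) ^ (base n i + j) := by
        refine Finset.sum_le_sum fun j _ => ?_
        split_ifs
        · exact (q_eq n i j).le
        · positivity
      refine h1.trans ((geom_up 2 (by norm_num) (base n i) (L + 1)).trans (le_of_eq ?_))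
      rw [q_eq]
      ring
    · rw [Finset.sum_range_succ, if_neg hL, add_zero]
      exact ih

lemma Q0_le_q (n i j : ℕ) : Q0 n i ≤ q (n, i, j) := by
  rw [q_eq, Q0]
  exact pow_le_pow_right₀ (by norm_num) (by omega)

lemma S1_bounds (n i : ℕ) {x : ℝ} (hx : 0 ≤ x) :
    S1 n i x ^ 3 ≤ 8 * x ∧ S1 n i x * Q0 n i ^ 2 ≤ 8 * x := by
  rcases S1_le_aux n i x (numLev n) with h | ⟨m, hm, h⟩
  · have h0 : S1 n i x = 0 := h
    rw [h0]
    constructor <;> nlinarith
  · have h0 : S1 n i x ≤ 2 * q (n, i, m) := h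
    have hq := q_pos (n, i, m)
    have h1 := S1_nonneg n i x
    have hQ := Q0_le_q n i m
    have hQ0 := Q0_pos n i
    constructor
    · calc S1 n i x ^ 3 ≤ (2 * q (n, i, m)) ^ 3 := by gcongr
        _ = 8 * q (n, i, m) ^ 3 := by ring
        _ ≤ 8 * x := by linarith
    · calc S1 n i x * Q0 n i ^ 2 ≤ (2 * q (n, i, m)) * q (n, i, m) ^ 2 := by gcongr
        _ = 2 * q (n, i, m) ^ 3 := by ring
        _ ≤ 8 * x := by nlinarith

lemma S2_le_aux (n i : ℕ) (x : ℝ) (L : ℕ) :
    (∑ j ∈ Finset.range L, if q (n, i, j) ^ 3 < x then 0 else (q (n, i, j) ^ 2)⁻¹) = 0 ∨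
    ∃ m, x ≤ q (n, i, m) ^ 3 ∧
      (∑ j ∈ Finset.range L, if q (n, i, j) ^ 3 < x then 0 else (q (n, i, j) ^ 2)⁻¹) ≤
        2 * (q (n, i, m) ^ 2)⁻¹ := by
  by_cases hall : ∀ j, q (n, i, j) ^ 3 < x
  · left
    exact Finset.sum_eq_zero fun j _ => by rw [if_pos (hall j)]
  · right
    push Not at hall
    classical
    set m := Nat.find hall with hm
    refine ⟨m, Nat.find_spec hall, ?_⟩
    have hlt : ∀ j < m, q (n, i, j) ^ 3 < x := fun j hj => not_le.1 (Nat.find_min hall hj)
    have h1 : (∑ j ∈ Finset.range L, if q (n, i, j) ^ 3 < x then 0 else (q (n, i, j) ^ 2)⁻¹) ≤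
        ∑ j ∈ Finset.range (m + L), if j < m then 0 else (q (n, i, j) ^ 2)⁻¹ := by
      calc _ ≤ ∑ j ∈ Finset.range (m + L),
            if q (n, i, j) ^ 3 < x then 0 else (q (n, i, j) ^ 2)⁻¹ := by
            refine Finset.sum_le_sum_of_subset_of_nonneg
              (Finset.range_subset_range.2 (by omega)) fun j _ _ => ?_
            have := q_pos (n, i, j)
            split_ifs <;> positivity
        _ ≤ _ := by
            refine Finset.sum_le_sum fun j _ => ?_
            have := q_pos (n, i, j)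
            by_cases hj : j < m
            · rw [if_pos (hlt j hj), if_pos hj]
            · rw [if_neg hj]
              split_ifs <;> [positivity; exact le_rfl]
    refine h1.trans ?_
    rw [Finset.sum_range_add, Finset.sum_eq_zero (fun j hj => by
      rw [if_pos (Finset.mem_range.1 hj)]), zero_add]
    have h2 : ∀ t ∈ Finset.range L, (if m + t < m then 0 else (q (n, i, m + t) ^ 2)⁻¹) =
        (((2 : ℝ) ^ 2) ^ ((base n i + m) + t))⁻¹ := by
      intro t _
      rw [if_neg (by omega), q_eq, ← pow_mul, ← pow_mul]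
      congr 2
      ring
    rw [Finset.sum_congr rfl h2]
    refine (geom_down ((2 : ℝ) ^ 2) (by norm_num) (base n i + m) L).trans ?_
    have h3 : ((2 : ℝ) ^ 2) ^ (base n i + m) = q (n, i, m) ^ 2 := by
      rw [q_eq, ← pow_mul, ← pow_mul]
      congr 1
      ring
    rw [h3]
    have := q_pos (n, i, m)
    have h4 : (2 : ℝ) ^ 2 / (2 ^ 2 - 1) ≤ 2 := by norm_num
    gcongr

lemma S2_bounds (n i : ℕ) {x : ℝ} (hx : 0 ≤ x) :
    S2 n i x ^ 3 ≤ 8 * x ∧ S2 n i x * Q0 n i ^ 2 ≤ 8 * x := by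
  rcases S2_le_aux n i x (numLev n) with h | ⟨m, hm, h⟩
  · have h0 : S2 n i x = 0 := by unfold S2; rw [h, mul_zero]
    rw [h0]
    constructor <;> nlinarith
  · have hq := q_pos (n, i, m)
    have h0 : S2 n i x ≤ x * (2 * (q (n, i, m) ^ 2)⁻¹) := by
      unfold S2
      exact mul_le_mul_of_nonneg_left h hx
    have h1 := S2_nonneg n i hx
    have hQ := Q0_le_q n i m
    have hQ0 := Q0_pos n i
    set Q := q (n, i, m) with hQd
    constructor
    · calc S2 n i x ^ 3 ≤ (x * (2 * (Q ^ 2)⁻¹)) ^ 3 := by gcongr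
        _ = 8 * x * (x / Q ^ 3) ^ 2 := by field_simp; ring
        _ ≤ 8 * x * 1 ^ 2 := by
            gcongr
            rw [div_le_one (by positivity)]
            exact hm
        _ = 8 * x := by ring
    · calc S2 n i x * Q0 n i ^ 2 ≤ (x * (2 * (Q ^ 2)⁻¹)) * Q ^ 2 := by gcongr
        _ = 2 * x := by field_simp
        _ ≤ 8 * x := by nlinarith

end Pool.Agent.H21.NC
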