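import Pool.Agent.H20.NP.Stage

/-!
# The basic duality inequality for the analysis operator
-/

open MeasureTheory ENNReal NNReal Filter Topology
open scoped InnerProductSpace

namespace Pool.Agent.H21.NC

variable {H : Type*} [NormedAddCommGroup H] [InnerProductSpace ℂ H] [CompleteSpace H]
variable {M : VonNeumannAlgebra H} {Ω : H}
  {emb : Lp ℂ 2 nu →ₗᵢ[ℂ] H} {X : (ZZ → ℝ) → H →L[ℂ] H}

lemma circ_prob : IsProbabilityMeasure (volume : Measure UnitAddCircle) :=
  ⟨UnitAddCircle.measure_univ⟩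

/-- the constant `8^(-n) ∑ q_j^3` -/
noncomputable def flat (n i : ℕ) : ℝ :=
  ((8 : ℝ) ^ n)⁻¹ * ∑ j ∈ Finset.range (numLev n), q (n, i, j) ^ 3

lemma flat_nonneg (n i : ℕ) : 0 ≤ flat n i :=
  mul_nonneg (by positivity) (Finset.sum_nonneg fun j _ => by have := q_pos (n, i, j); positivity)

lemma flat_le (n i : ℕ) : flat n i ≤ Q1 n i ^ 3 := by
  have h1 : ((8 : ℝ) ^ n)⁻¹ ≤ 1 := inv_le_one_of_one_le₀ (one_le_pow₀ (by norm_num))
  have h2 := sum_q_pow 3 (by norm_num) n i
  have h3 : 0 ≤ ∑ j ∈ Finset.range (numLev n), q (n, i, j) ^ 3 :=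
    Finset.sum_nonneg fun j _ => by have := q_pos (n, i, j); positivity
  calc flat n i ≤ 1 * ∑ j ∈ Finset.range (numLev n), q (n, i, j) ^ 3 := by
        unfold flat; gcongr
    _ ≤ Q1 n i ^ 3 := by rw [one_mul]; exact h2

lemma re_tr_le_pnorm (hΩ : IsTraceVector M Ω) {g : H →L[ℂ] H} (hg : g ∈ M) :
    (tr Ω g).re ≤ pnorm Ω (4 / 3) g := by
  have h := holder hΩ hg (one_mem M)
  rw [mul_one, pnorm_four_one hΩ, mul_one] at h
  exact (Complex.re_le_norm _).trans h

/-- a nice nonnegative representative of the analysis of `B_g` -/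
lemma exists_rep (hP : FreePoisson nu M Ω emb X) {g : H →L[ℂ] H} (hg : g ∈ M) (hg0 : 0 ≤ g)
    (n i : ℕ) : ∃ c : UnitAddCircle → ℝ, ∃ C : ℝ, Measurable c ∧ (∀ s, 0 ≤ c s) ∧
      (∀ s, c s ≤ C) ∧ ∀ᵐ s, Aop n i (chaos emb Ω g) s =
        ((c s - flat n i * (tr Ω g).re : ℝ) : ℂ) := by
  set B := chaos emb Ω g with hB
  set T := (tr Ω g).re with hT
  set C0 := 4 * ‖g‖ + |T| with hC0
  have hC0' : 0 ≤ C0 := by positivity
  set BB : ZZ → ℝ := fun z => max 0 (min C0 ((B z).re + T)) with hBB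
  have hmB : Measurable (B : ZZ → ℂ) := (Lp.stronglyMeasurable B).measurable
  have hBBm : ∀ a : Lev, Measurable fun s => BB (s, a) := by
    intro a
    have h1 : Measurable fun s : UnitAddCircle => B (s, a) :=
      hmB.comp (measurable_id.prodMk measurable_const)
    exact measurable_const.max (measurable_const.min
      ((Complex.measurable_re.comp h1).add measurable_const))
  have hBB0 : ∀ z, 0 ≤ BB z := fun z => le_max_left _ _
  have hBBC : ∀ z, BB z ≤ C0 := fun z => max_le hC0' (min_le_left _ _)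
  refine ⟨fun s => ((8 : ℝ) ^ n)⁻¹ * ∑ j ∈ Finset.range (numLev n),
      q (n, i, j) ^ 3 * BB (s, (n, i, j)),
    ((8 : ℝ) ^ n)⁻¹ * ∑ j ∈ Finset.range (numLev n), q (n, i, j) ^ 3 * C0, ?_, ?_, ?_, ?_⟩
  · exact (Finset.measurable_fun_sum _ fun j _ => (hBBm _).const_mul _).const_mul _
  · intro s
    refine mul_nonneg (by positivity) (Finset.sum_nonneg fun j _ => ?_)
    have := q_pos (n, i, j)
    exact mul_nonneg (by positivity) (hBB0 _)
  · intro s
    have : ∀ j ∈ Finset.range (numLev n), q (n, i, j) ^ 3 * BB (s, (n, i, j)) ≤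
        q (n, i, j) ^ 3 * C0 := fun j _ => by
      have := q_pos (n, i, j)
      exact mul_le_mul_of_nonneg_left (hBBC _) (by positivity)
    exact mul_le_mul_of_nonneg_left (Finset.sum_le_sum this) (by positivity)
  · have e1 := ae_nu.1 (chaos_nonneg hP hg hg0)
    have e2 := ae_nu.1 (chaos_im hP hg (IsSelfAdjoint.of_nonneg hg0))
    have e3 := ae_nu.1 (chaos_bound hP hg)
    have e4 : ∀ᵐ s : UnitAddCircle, ∀ j, 0 ≤ (B (s, (n, i, j))).re + T ∧
        (B (s, (n, i, j))).im = 0 ∧ ‖B (s, (n, i, j))‖ ≤ 4 * ‖g‖ := by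
      rw [ae_all_iff]
      intro j
      filter_upwards [e1 (n, i, j), e2 (n, i, j), e3 (n, i, j)] with s h1 h2 h3
      exact ⟨h1, h2, h3⟩
    filter_upwards [e4] with s hs
    have e5 : ∀ j, BB (s, (n, i, j)) = (B (s, (n, i, j))).re + T := by
      intro j
      obtain ⟨h1, h2, h3⟩ := hs j
      have h4 : (B (s, (n, i, j))).re + T ≤ C0 :=
        add_le_add ((Complex.re_le_norm _).trans h3) (le_abs_self _)
      simp only [hBB]
      rw [min_eq_right h4, max_eq_right h1]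
    have e6 : ∀ j, B (s, (n, i, j)) = (((B (s, (n, i, j))).re : ℝ) : ℂ) := by
      intro j
      apply Complex.ext
      · simp
      · simp [(hs j).2.1]
    have e7 : (((8 : ℝ) ^ n)⁻¹ * ∑ j ∈ Finset.range (numLev n),
        q (n, i, j) ^ 3 * BB (s, (n, i, j))) - flat n i * T =
        ((8 : ℝ) ^ n)⁻¹ * ∑ j ∈ Finset.range (numLev n),
          q (n, i, j) ^ 3 * (B (s, (n, i, j))).re := by
      rw [flat, mul_assoc, ← mul_sub, Finset.sum_mul, ← Finset.sum_sub_distrib]
      congr 1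
      refine Finset.sum_congr rfl fun j _ => ?_
      rw [e5]
      ring
    rw [e7, Aop, Complex.ofReal_mul, Complex.ofReal_sum]
    congr 1
    refine Finset.sum_congr rfl fun j _ => ?_
    rw [Complex.ofReal_mul, ← e6]

lemma numLev_eq (n : ℕ) : ((numLev n : ℕ) : ℝ) = ((8 : ℝ) ^ n) ^ 4 := by
  rw [numLev]; push_cast
  rw [← pow_mul, mul_comm n 4, pow_mul]; norm_num

/-- the duality inequality -/
theorem star_ineq (hP : FreePoisson nu M Ω emb X) {g : H →L[ℂ] H} (hg : g ∈ M)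
    {n i : ℕ} {c : UnitAddCircle → ℝ} {C : ℝ} (hcm : Measurable c) (hc0 : ∀ s, 0 ≤ c s)
    (hcC : ∀ s, c s ≤ C) (hc : ∀ᵐ s, Aop n i (chaos emb Ω g) s =
        ((c s - flat n i * (tr Ω g).re : ℝ) : ℂ))
    {f : UnitAddCircle → ℝ} {D : ℝ} (hfm : Measurable f) (hf0 : ∀ s, 0 ≤ f s)
    (hfD : ∀ s, f s ≤ D) :
    ∃ r : ℝ, 0 ≤ r ∧ r ^ 4 ≤ (∫ s, f s ^ 4) + 2 * Q1 n i ^ 4 * (∫ s, f s ^ 2) ^ 2 ∧
      ∫ s, c s * f s ≤ pnorm Ω (4 / 3) g * (r + Q1 n i ^ 3 * ∫ s, f s) := by
  have hprob := circ_prob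
  have habs : ∀ s, |f s| ≤ D := fun s => by rw [abs_of_nonneg (hf0 s)]; exact hfD s
  have hcabs : ∀ s, |c s| ≤ C := fun s => by rw [abs_of_nonneg (hc0 s)]; exact hcC s
  have hD0 : 0 ≤ D := (hf0 0).trans (hfD 0)
  have hC0 : 0 ≤ C := (hc0 0).trans (hcC 0)
  have e8 : (0 : ℝ) < (8 : ℝ) ^ n := by positivity
  have e8' : (1 : ℝ) ≤ (8 : ℝ) ^ n := one_le_pow₀ (by norm_num)
  set B := chaos emb Ω g with hB
  set F : ℕ → UnitAddCircle → ℝ := fun j s => ((8 : ℝ) ^ n * q (n, i, j))⁻¹ * f s with hF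
  set G : ZZ → ℝ := stg n i F with hG
  have hFm : ∀ j, Measurable (F j) := fun j => hfm.const_mul _
  have hFb : ∀ j s, |F j s| ≤ D := by
    intro j s
    have h1 : ((8 : ℝ) ^ n * q (n, i, j))⁻¹ ≤ 1 := inv_le_one_of_one_le₀
      (one_le_mul_of_one_le_of_one_le e8' (one_le_q _))
    have h2 := q_pos (n, i, j)
    rw [hF, abs_mul, abs_of_nonneg (by positivity : (0 : ℝ) ≤ ((8 : ℝ) ^ n * q (n, i, j))⁻¹)]
    calc _ ≤ 1 * |f s| := by gcongr
      _ ≤ D := by rw [one_mul]; exact habs s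
  have hGood : Good nu G := good_stg hFm hFb
  -- the trace
  have hBint : ∀ a : Lev, Integrable (fun s => B (s, a)) volume := by
    intro a
    have h1 := ae_nu.1 (chaos_bound hP hg) a
    have h2 : AEStronglyMeasurable (fun s => B (s, a)) volume :=
      aesm_nu.1 (Lp.aestronglyMeasurable B) a
    exact Integrable.of_bound h2 _ h1
  have hfB : ∀ a : Lev, Integrable (fun s => ((f s : ℝ) : ℂ) * B (s, a)) volume := by
    intro a
    refine (hBint a).bdd_mul (c := D)
      (Complex.measurable_ofReal.comp hfm).aestronglyMeasurable (Eventually.of_forall fun s => ?_)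
    rw [Complex.norm_real]
    exact habs s
  have htr : tr Ω (X G * g) = ∫ s, ((f s : ℝ) : ℂ) * Aop n i B s := by
    rw [tr_X_mul hP hGood]
    rw [integral_nu_finset (lset n i)]
    · have h1 : ∑ a ∈ lset n i, q a ^ 4 • ∫ s, ((G (s, a) : ℝ) : ℂ) * B (s, a) =
          ∑ j ∈ Finset.range (numLev n), ∫ s, ((((8 : ℝ) ^ n)⁻¹ * q (n, i, j) ^ 3 : ℝ) : ℂ) *
            (((f s : ℝ) : ℂ) * B (s, (n, i, j))) := by
        rw [lset, Finset.sum_image (fun a _ b _ h => by simpa using h)]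
        refine Finset.sum_congr rfl fun j hj => ?_
        rw [← integral_smul]
        congr 1
        ext s
        have h2 : G (s, (n, i, j)) = F j s := stg_on F (Finset.mem_range.1 hj) s
        rw [h2, hF, Complex.real_smul]
        have h3 := q_pos (n, i, j)
        have h4 : q (n, i, j) ^ 4 * ((8 : ℝ) ^ n * q (n, i, j))⁻¹ =
            ((8 : ℝ) ^ n)⁻¹ * q (n, i, j) ^ 3 := by
          field_simp
        rw [← h4]
        push_cast
        ring
      rw [h1, ← integral_finsetSum]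
      · congr 1
        ext s
        rw [Aop, Finset.mul_sum, Finset.mul_sum]
        refine Finset.sum_congr rfl fun j _ => ?_
        push_cast
        ring
      · intro j _
        exact (hfB _).const_mul _
    · intro a ha s
      rw [hG, stg_off F ha]; simp
    · intro a ha
      obtain ⟨j, hj, rfl⟩ := Finset.mem_image.1 ha
      have h2 : (fun s => ((G (s, (n, i, j)) : ℝ) : ℂ) * B (s, (n, i, j))) = fun s =>
          (((((8 : ℝ) ^ n * q (n, i, j))⁻¹ : ℝ)) : ℂ) * (((f s : ℝ) : ℂ) * B (s, (n, i, j))) := by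
        ext s
        have h2 : G (s, (n, i, j)) = F j s := stg_on F (Finset.mem_range.1 hj) s
        rw [h2, hF]
        push_cast
        ring
      rw [h2]
      exact (hfB _).const_mul _
  have hcf : Integrable (fun s => c s * f s) volume := by
    refine integrable_bdd (hcm.mul hfm) (C := C * D) fun s => ?_
    rw [abs_mul]
    exact mul_le_mul (hcabs s) (habs s) (abs_nonneg _) hC0
  have hfi : Integrable f volume := integrable_bdd hfm habs
  have htr2 : (tr Ω (X G * g)).re = (∫ s, c s * f s) - flat n i * (tr Ω g).re * ∫ s, f s := by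
    have h1 : tr Ω (X G * g) =
        ((∫ s, (c s * f s - flat n i * (tr Ω g).re * f s) : ℝ) : ℂ) := by
      rw [htr, ← integral_complex_ofReal]
      refine integral_congr_ae ?_
      filter_upwards [hc] with s hs
      rw [hs, ← Complex.ofReal_mul]
      congr 1
      ring
    rw [h1, Complex.ofReal_re, integral_sub hcf (hfi.const_mul _), integral_const_mul]
  refine ⟨pnorm Ω 4 (X G), pnorm_four_nonneg _, ?_, ?_⟩
  · have hsa : star (X G) = X G := hP.selfAdjoint G hGood.1 hGood.2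
    rw [pnorm_four_pow hP.isTrace (hP.mem G hGood.1 hGood.2), hsa]
    have h1 : ‖(X G * X G) Ω‖ ^ 2 = 2 * (∫ z, G z ^ 2 ∂nu) ^ 2 + ∫ z, G z ^ 4 ∂nu :=
      hP.fourth G hGood.1 hGood.2
    rw [h1]
    have h4 : ∫ z, G z ^ 4 ∂nu = ∫ s, f s ^ 4 := by
      have h2 : ∀ z, G z ^ 4 = stg n i (fun j s => F j s ^ 4) z :=
        fun z => stg_pow n i F 4 (by norm_num) z
      simp_rw [h2]
      rw [integral_stg fun j => integrable_bdd ((hFm j).pow_const 4) (C := D ^ 4) fun s => by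
        rw [abs_pow]; exact pow_le_pow_left₀ (abs_nonneg _) (hFb j s) 4]
      have h3 : ∀ j ∈ Finset.range (numLev n), q (n, i, j) ^ 4 * ∫ s, F j s ^ 4 =
          (((8 : ℝ) ^ n) ^ 4)⁻¹ * ∫ s, f s ^ 4 := by
        intro j _
        have h5 : ∀ s, F j s ^ 4 = (((8 : ℝ) ^ n * q (n, i, j))⁻¹) ^ 4 * f s ^ 4 :=
          fun s => mul_pow _ _ _
        simp_rw [h5]
        rw [integral_const_mul, ← mul_assoc]
        congr 1
        have := q_pos (n, i, j)
        field_simp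
      rw [Finset.sum_congr rfl h3, Finset.sum_const, Finset.card_range, nsmul_eq_mul, numLev_eq,
        ← mul_assoc, mul_inv_cancel₀ (by positivity), one_mul]
    have h2 : ∫ z, G z ^ 2 ∂nu ≤ Q1 n i ^ 2 * ∫ s, f s ^ 2 := by
      have h2 : ∀ z, G z ^ 2 = stg n i (fun j s => F j s ^ 2) z :=
        fun z => stg_pow n i F 2 (by norm_num) z
      simp_rw [h2]
      rw [integral_stg fun j => integrable_bdd ((hFm j).pow_const 2) (C := D ^ 2) fun s => by
        rw [abs_pow]; exact pow_le_pow_left₀ (abs_nonneg _) (hFb j s) 2]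
      have h3 : ∀ j ∈ Finset.range (numLev n), q (n, i, j) ^ 4 * ∫ s, F j s ^ 2 =
          q (n, i, j) ^ 2 * ((((8 : ℝ) ^ n) ^ 2)⁻¹ * ∫ s, f s ^ 2) := by
        intro j _
        have h5 : ∀ s, F j s ^ 2 = (((8 : ℝ) ^ n * q (n, i, j))⁻¹) ^ 2 * f s ^ 2 :=
          fun s => mul_pow _ _ _
        simp_rw [h5]
        rw [integral_const_mul, ← mul_assoc, ← mul_assoc]
        congr 1
        have := q_pos (n, i, j)
        field_simp
      rw [Finset.sum_congr rfl h3, ← Finset.sum_mul]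
      have h6 := sum_q_pow 2 (by norm_num) n i
      have h7 : 0 ≤ ∫ s, f s ^ 2 := integral_nonneg fun s => by positivity
      have h8 : (((8 : ℝ) ^ n) ^ 2)⁻¹ ≤ 1 := inv_le_one_of_one_le₀ (one_le_pow₀ e8')
      have h9 : (((8 : ℝ) ^ n) ^ 2)⁻¹ * (∫ s, f s ^ 2) ≤ ∫ s, f s ^ 2 := by
        calc _ ≤ 1 * ∫ s, f s ^ 2 := by gcongr
          _ = _ := one_mul _
      have h10 := Q1_pos n i
      gcongr
    have h3 : 0 ≤ ∫ z, G z ^ 2 ∂nu := integral_nonneg fun z => by positivity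
    rw [h4]
    have h5 : (∫ z, G z ^ 2 ∂nu) ^ 2 ≤ (Q1 n i ^ 2 * ∫ s, f s ^ 2) ^ 2 :=
      pow_le_pow_left₀ h3 h2 2
    nlinarith [h5]
  · have h1 := holder hP.isTrace hg (hP.mem G hGood.1 hGood.2)
    rw [tr_mul_comm hP.isTrace hg (hP.mem G hGood.1 hGood.2)] at h1
    have h2 := (Complex.re_le_norm (tr Ω (X G * g))).trans h1
    rw [htr2] at h2
    have h3 := re_tr_le_pnorm hP.isTrace hg
    have h4 : 0 ≤ ∫ s, f s := integral_nonneg hf0
    have h5 := pnorm_nonneg' (Ω := Ω) g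
    have h6 : flat n i * (tr Ω g).re * ∫ s, f s ≤ Q1 n i ^ 3 * pnorm Ω (4 / 3) g * ∫ s, f s := by
      have h7 : flat n i * (tr Ω g).re ≤ Q1 n i ^ 3 * pnorm Ω (4 / 3) g :=
        calc flat n i * (tr Ω g).re ≤ flat n i * pnorm Ω (4 / 3) g :=
              mul_le_mul_of_nonneg_left h3 (flat_nonneg _ _)
          _ ≤ _ := mul_le_mul_of_nonneg_right (flat_le _ _) h5
      exact mul_le_mul_of_nonneg_right h7 h4
    nlinarith

end Pool.Agent.H21.NC
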